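import Mathlib
import Pool.Agent.Helper55.JS.Walks

/-!
# Project JS, piece JS-1: log-convex sequences
-/

set_option autoImplicit false

namespace Pool.Agent.Helper55.JS

open Finset

namespace P1

theorem step {a : ℕ → ℝ} (hpos : ∀ r, 0 ≤ a r)
    (hlc : ∀ r, 1 ≤ r → a r ^ 2 ≤ a (r - 1) * a (r + 1)) {r : ℕ} (hr : 1 ≤ r) (d : ℕ) :
    a r * a (r + d) ≤ a (r - 1) * a (r + d + 1) := by
  induction d with
  | zero => have := hlc r hr; simpa [sq] using this
  | succ d ih =>
    have h1 := hlc (r + d + 1) (by omega)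
    have h1' : a (r + d + 1) ^ 2 ≤ a (r + d) * a (r + d + 2) := by simpa using h1
    rcases (hpos (r + d + 1)).eq_or_lt with h0 | h0
    · have e1 : a (r + (d + 1)) = 0 := by rw [← add_assoc]; exact h0.symm
      rw [e1, mul_zero]
      exact mul_nonneg (hpos _) (hpos _)
    · have h2 : a r * a (r + d + 1) ^ 2 ≤ a r * (a (r + d) * a (r + d + 2)) :=
        mul_le_mul_of_nonneg_left h1' (hpos r)
      have h3 : a r * a (r + d) * a (r + d + 2) ≤ a (r - 1) * a (r + d + 1) * a (r + d + 2) :=
        mul_le_mul_of_nonneg_right ih (hpos _)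
      have h4 : a (r + d + 1) * (a r * a (r + d + 1)) ≤
          a (r + d + 1) * (a (r - 1) * a (r + d + 2)) := by nlinarith
      have := le_of_mul_le_mul_left h4 h0
      simpa [← add_assoc] using this

theorem toOne {a : ℕ → ℝ} (hpos : ∀ r, 0 ≤ a r)
    (hlc : ∀ r, 1 ≤ r → a r ^ 2 ≤ a (r - 1) * a (r + 1)) (r : ℕ) :
    ∀ m : ℕ, r + 1 ≤ m → a (r + 1) * a m ≤ a 1 * a (m + r) := by
  induction r with
  | zero => intro m _; simp
  | succ r ih =>
    intro m hm
    obtain ⟨d, rfl⟩ := Nat.exists_eq_add_of_le hm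
    have h1 := step hpos hlc (r := r + 2) (by omega) d
    have h2 := ih (r + 2 + d + 1) (by omega)
    have e : r + 2 - 1 = r + 1 := by omega
    rw [e] at h1
    have e2 : r + 2 + d + 1 + r = r + 1 + 1 + d + (r + 1) := by omega
    rw [e2] at h2
    exact h1.trans h2

end P1

/-- JS-1a -/
theorem logconv_prod {a : ℕ → ℝ} (hpos : ∀ r, 0 ≤ a r)
    (hlc : ∀ r, 1 ≤ r → a r ^ 2 ≤ a (r - 1) * a (r + 1)) (h0 : a 0 = 1) {L ε : ℝ} (hL : a 1 ≤ L)
    (hε : 0 < ε) {k r : ℕ} (hr : 1 ≤ r) (hrk : r < k) :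
    a r * a (k - r) ≤ ε * a k + (L / ε) ^ k := by
  have hL0 : 0 ≤ L := (hpos 1).trans hL
  have hM0 : 0 ≤ L / ε := div_nonneg hL0 hε.le
  -- reduction to a 1 * a (k - 1)
  have key : a r * a (k - r) ≤ a 1 * a (k - 1) := by
    rcases le_total r (k - r) with h | h
    · obtain ⟨r', rfl⟩ : ∃ r', r = r' + 1 := ⟨r - 1, by omega⟩
      have := P1.toOne hpos hlc r' (k - (r' + 1)) h
      have e : k - (r' + 1) + r' = k - 1 := by omega
      rwa [e] at this
    · obtain ⟨s, hs⟩ : ∃ s, k - r = s + 1 := ⟨k - r - 1, by omega⟩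
      have := P1.toOne hpos hlc s r (by omega)
      have e : r + s = k - 1 := by omega
      rw [e] at this
      rw [hs, mul_comm]
      exact this
  have h1 : a 1 * a (k - 1) ≤ L * a (k - 1) := mul_le_mul_of_nonneg_right hL (hpos _)
  have hpow : 0 ≤ (L / ε) ^ k := pow_nonneg hM0 k
  by_cases hc : L * a (k - 1) ≤ ε * a k
  · linarith
  · push Not at hc
    have hlast : a k ≤ L / ε * a (k - 1) := by
      rw [div_mul_eq_mul_div, le_div_iff₀ hε]
      linarith
    have desc : ∀ d : ℕ, d + 1 ≤ k → a (k - d) ≤ L / ε * a (k - d - 1) := by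
      intro d
      induction d with
      | zero => intro _; simpa using hlast
      | succ d ih =>
        intro hd
        have h2 := ih (by omega)
        have h3 := hlc (k - (d + 1)) (by omega)
        have e1 : k - (d + 1) + 1 = k - d := by omega
        have e2 : k - d - 1 = k - (d + 1) := by omega
        rw [e1] at h3
        rw [e2] at h2
        rcases (hpos (k - (d + 1))).eq_or_lt with h0' | h0'
        · rw [← h0']
          exact mul_nonneg hM0 (hpos _)
        · have h4 : a (k - (d + 1)) * a (k - (d + 1)) ≤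
              a (k - (d + 1)) * (L / ε * a (k - (d + 1) - 1)) := by
            have h5 : a (k - (d + 1) - 1) * a (k - d) ≤
                a (k - (d + 1) - 1) * (L / ε * a (k - (d + 1))) :=
              mul_le_mul_of_nonneg_left h2 (hpos _)
            nlinarith
          exact le_of_mul_le_mul_left h4 h0'
    have asc : ∀ i : ℕ, i ≤ k → a i ≤ (L / ε) ^ i := by
      intro i
      induction i with
      | zero => intro _; simp [h0]
      | succ i ih =>
        intro hi
        have h2 := desc (k - (i + 1)) (by omega)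
        have e1 : k - (k - (i + 1)) = i + 1 := by omega
        have e2 : i + 1 - 1 = i := by omega
        rw [e1, e2] at h2
        calc a (i + 1) ≤ L / ε * a i := h2
          _ ≤ L / ε * (L / ε) ^ i := mul_le_mul_of_nonneg_left (ih (by omega)) hM0
          _ = (L / ε) ^ (i + 1) := by ring
    have h6 : a 1 * a (k - 1) ≤ (L / ε) ^ k := by
      calc a 1 * a (k - 1) ≤ (L / ε) ^ 1 * (L / ε) ^ (k - 1) :=
            mul_le_mul (asc 1 (by omega)) (asc (k - 1) (by omega)) (hpos _) (pow_nonneg hM0 1)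
        _ = (L / ε) ^ k := by
            rw [← pow_add]
            congr 1
            omega
    have h7 : 0 ≤ ε * a k := mul_nonneg hε.le (hpos k)
    linarith

/-- JS-1b -/
theorem logconv_le {a : ℕ → ℝ} (hpos : ∀ r, 0 ≤ a r)
    (hlc : ∀ r, 1 ≤ r → a r ^ 2 ≤ a (r - 1) * a (r + 1)) (h0 : a 0 = 1) {T E : ℝ} (hT : 1 ≤ T)
    (hE : 0 < E) {k : ℕ} (hk : a k ≤ T * E ^ k) {m : ℕ} (hm : m ≤ k) : a m ≤ T * E ^ m := by
  classical
  by_contra hcon
  push Not at hcon
  have hex : ∃ i, T * E ^ i < a i := ⟨m, hcon⟩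
  have hmin : Nat.find hex ≤ m := Nat.find_min' hex hcon
  have hspec := Nat.find_spec hex
  obtain ⟨n, hn⟩ : ∃ n, Nat.find hex = n + 1 := by
    rcases Nat.eq_zero_or_pos (Nat.find hex) with h | h
    · rw [h, h0, pow_zero, mul_one] at hspec
      exact absurd hspec (not_lt.mpr hT)
    · exact ⟨Nat.find hex - 1, by omega⟩
  have hlt : ¬ (T * E ^ n < a n) := Nat.find_min hex (by omega)
  push Not at hlt
  rw [hn] at hspec
  have claim : ∀ j : ℕ, T * E ^ (n + 1 + j) < a (n + 1 + j) ∧ E * a (n + j) ≤ a (n + 1 + j) := by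
    intro j
    induction j with
    | zero =>
      refine ⟨hspec, ?_⟩
      have : E * a n ≤ E * (T * E ^ n) := mul_le_mul_of_nonneg_left hlt hE.le
      have e : E * (T * E ^ n) = T * E ^ (n + 1) := by ring
      simp only [add_zero]
      linarith
    | succ j ih =>
      obtain ⟨h1, h2⟩ := ih
      have hp : 0 < a (n + 1 + j) :=
        lt_of_le_of_lt (mul_nonneg (by linarith) (pow_nonneg hE.le _)) h1
      have h3 := hlc (n + 1 + j) (by omega)
      have e1 : n + 1 + j - 1 = n + j := by omega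
      rw [e1] at h3
      have h4 : E * a (n + 1 + j) ≤ a (n + 1 + j + 1) := by
        have h5 : a (n + 1 + j) * (E * a (n + 1 + j)) ≤ a (n + 1 + j) * a (n + 1 + j + 1) := by
          have h6 : E * a (n + 1 + j) ^ 2 ≤ E * (a (n + j) * a (n + 1 + j + 1)) :=
            mul_le_mul_of_nonneg_left h3 hE.le
          have h7 : E * a (n + j) * a (n + 1 + j + 1) ≤ a (n + 1 + j) * a (n + 1 + j + 1) :=
            mul_le_mul_of_nonneg_right h2 (hpos _)
          nlinarith
        exact le_of_mul_le_mul_left h5 hp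
      refine ⟨?_, ?_⟩
      · have e2 : T * E ^ (n + 1 + (j + 1)) = E * (T * E ^ (n + 1 + j)) := by ring
        have h8 : E * (T * E ^ (n + 1 + j)) < E * a (n + 1 + j) := mul_lt_mul_of_pos_left h1 hE
        rw [e2]
        exact h8.trans_le h4
      · have e3 : n + (j + 1) = n + 1 + j := by omega
        rw [e3]
        exact h4
  have hfin := (claim (k - (n + 1))).1
  have e : n + 1 + (k - (n + 1)) = k := by omega
  rw [e] at hfin
  linarith

end Pool.Agent.Helper55.JS
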